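import Mathlib

set_option autoImplicit false

namespace Pool.Agent.Results.MP_6df474_gt.Simplex

open MeasureTheory Set Pointwise

abbrev E (n : ℕ) := EuclideanSpace ℝ (Fin n)

/-- The section of `K` by the coordinate plane `x i = 0`, as a subset of the Euclidean plane. -/
def sec (K : Set (E 3)) (i : Fin 3) : Set (E 2) :=
  {y | WithLp.toLp 2 (Fin.insertNth i (0 : ℝ) y.ofLp) ∈ K}

/-- Half the surface area. -/
noncomputable def V2 (K : Set (E 3)) : ℝ := (μHE[2] (frontier K)).toReal / 2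

/-- Half the perimeter of the section. -/
noncomputable def ell (K : Set (E 3)) (i : Fin 3) : ℝ := (μH[1] (frontier (sec K i))).toReal / 2

def T (n : ℕ) (c : ℝ) : Set (E n) := {x | (∀ i, -1 ≤ x i) ∧ ∑ i, x i ≤ c}

lemma T_closed (n : ℕ) (c : ℝ) : IsClosed (T n c) := by
  unfold T
  rw [setOf_and, setOf_forall]
  exact (isClosed_iInter fun i => isClosed_le continuous_const (by fun_prop)).inter
    (isClosed_le (by fun_prop) continuous_const)

lemma T_int (n : ℕ) (c : ℝ) :
    interior (T (n + 1) c) = {x | (∀ i, -1 < x i) ∧ ∑ i, x i < c} := by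
  have e : T (n + 1) c = (⋂ i, (EuclideanSpace.proj i : E (n + 1) →L[ℝ] ℝ) ⁻¹' Ici (-1)) ∩
      (∑ i, EuclideanSpace.proj i : E (n + 1) →L[ℝ] ℝ) ⁻¹' Iic c := by
    ext x; simp [T]
  rw [e, interior_inter, interior_iInter_of_finite, ContinuousLinearMap.interior_preimage _
    fun t => ⟨EuclideanSpace.single 0 t, by simp⟩]
  have : ∀ i : Fin (n + 1), Function.Surjective (EuclideanSpace.proj i : E (n + 1) →L[ℝ] ℝ) :=
    fun i t => ⟨EuclideanSpace.single i t, by simp⟩
  simp only [ContinuousLinearMap.interior_preimage _ (this _)]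
  ext x; simp

lemma T_fr (n : ℕ) (c : ℝ) (x : E (n + 1)) : x ∈ frontier (T (n + 1) c) ↔
    x ∈ T (n + 1) c ∧ ((∃ i, x i = -1) ∨ ∑ i, x i = c) := by
  rw [(T_closed _ _).frontier_eq, T_int, mem_sdiff]
  refine and_congr_right fun h => ?_
  simp only [mem_ofPred_eq, not_and_or, not_forall, not_lt]
  exact or_congr (exists_congr fun i => ⟨fun k => le_antisymm k (h.1 i), le_of_eq⟩)
    ⟨le_antisymm h.2, ge_of_eq⟩

lemma sec_eq (i : Fin 3) : sec (T 3 40) i = T 2 40 := by
  ext y
  simp only [sec, T, mem_ofPred_eq]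
  rw [Fin.forall_iff_succAbove i, Fin.sum_univ_succAbove _ i]
  simp

lemma perim : μH[1] (frontier (T 2 40)) = ENNReal.ofReal (42 * (2 + √2)) := by
  have := Measure.nullSingletonClass_hausdorff (E 2) one_pos
  have e : frontier (T 2 40) = (segment ℝ !₂[-1, -1] !₂[41, -1] ∪ segment ℝ !₂[-1, -1] !₂[-1, 41])
      ∪ segment ℝ !₂[41, -1] !₂[-1, 41] := by
    ext y
    rw [T_fr]
    simp only [T, mem_ofPred_eq, Fin.forall_fin_two, Fin.exists_fin_two, Fin.sum_univ_two, segment,
      mem_union, PiLp.ext_iff]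
    simp
    constructor
    · rintro ⟨⟨⟨a, b⟩, c⟩, (h | h) | h⟩
      · exact .inl (.inr ⟨1 - (y 1 + 1) / 42, by linarith, (y 1 + 1) / 42, by linarith, by ring,
          by linarith, by ring⟩)
      · exact .inl (.inl ⟨1 - (y 0 + 1) / 42, by linarith, (y 0 + 1) / 42, by linarith, by ring,
          by ring, by linarith⟩)
      · exact .inr ⟨1 - (y 1 + 1) / 42, by linarith, (y 1 + 1) / 42, by linarith, by ring,
          by linarith, by ring⟩
    · rintro ((⟨a, h1, b, h2, h3, h4, h5⟩ | ⟨a, h1, b, h2, h3, h4, h5⟩) | ⟨a, h1, b, h2, h3, h4, h5⟩)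
      · exact ⟨⟨⟨by linarith, by linarith⟩, by linarith⟩, .inl (.inr (by linarith))⟩
      · exact ⟨⟨⟨by linarith, by linarith⟩, by linarith⟩, .inl (.inl (by linarith))⟩
      · exact ⟨⟨⟨by linarith, by linarith⟩, by linarith⟩, .inr (by linarith)⟩
  have ms : ∀ a b : E 2, NullMeasurableSet (segment ℝ a b) μH[1] := fun a b => by
    rw [segment_eq_image_lineMap]
    exact (isCompact_Icc.image AffineMap.lineMap_continuous).measurableSet.nullMeasurableSet
  rw [e, measure_union₀ (ms _ _), measure_union₀ (ms _ _), hausdorffMeasure_segment,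
    hausdorffMeasure_segment, hausdorffMeasure_segment]
  · simp only [edist_dist, EuclideanSpace.dist_eq, Fin.sum_univ_two, Real.dist_eq, sq_abs]
    rw [← ENNReal.ofReal_add (by positivity) (by positivity),
      ← ENNReal.ofReal_add (by positivity) (by positivity)]
    congr 1
    norm_num
    rw [show (3528 : ℝ) = 42 ^ 2 * 2 by norm_num,
      Real.sqrt_mul (by positivity), Real.sqrt_sq (by norm_num)]
    ring
  · refine measure_mono_null (t := {!₂[-1, -1]}) ?_ (measure_singleton _)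
    rintro y ⟨⟨a, b, h1, h2, h3, h4⟩, c, d, h5, h6, h7, h8⟩
    simp [PiLp.ext_iff] at h4 h8 ⊢
    constructor <;> linarith
  · refine measure_mono_null (t := {!₂[41, -1], !₂[-1, 41]}) ?_ ((toFinite _).measure_zero _)
    rintro y ⟨⟨a, b, h1, h2, h3, h4⟩ | ⟨a, b, h1, h2, h3, h4⟩, c, d, h5, h6, h7, h8⟩
    · left
      simp [PiLp.ext_iff] at h4 h8 ⊢
      constructor <;> linarith
    · right
      simp [PiLp.ext_iff] at h4 h8 ⊢
      constructor <;> linarith

lemma area : volume (T 2 41) ≤ ENNReal.ofReal (9331 / 10) := by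
  have mp := (volume_preserving_finTwoArrow ℝ).comp (PiLp.volume_preserving_ofLp (Fin 2))
  have h := volume_regionBetween_eq_integral (μ := volume) (f := fun _ : ℝ => (-11 / 10 : ℝ))
    (g := fun x => 411 / 10 - x) (s := Icc (-1) 42) (by simp)
    (Continuous.integrableOn_Icc (by fun_prop)) measurableSet_Icc fun x hx => by linarith [hx.2]
  rw [integral_Icc_eq_integral_Ioc, ← intervalIntegral.integral_of_le (by norm_num)] at h
  simp only [Pi.sub_apply] at h
  rw [intervalIntegral.integral_sub (Continuous.intervalIntegrable (by fun_prop) _ _) (by simp),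
    intervalIntegral.integral_sub (by simp) (by simp), integral_id] at h
  refine le_trans (measure_mono ?_) ((mp.measure_preimage (measurableSet_regionBetween
    (f := fun _ : ℝ => (-11 / 10 : ℝ)) (g := fun x => 411 / 10 - x) (by fun_prop) (by fun_prop)
    (measurableSet_Icc (a := -1) (b := 42))).nullMeasurableSet).trans (h.trans ?_)).le
  · rintro y ⟨a, b⟩
    rw [Fin.sum_univ_two] at b
    have := a 0
    have := a 1
    simp [regionBetween]
    refine ⟨⟨?_, ?_⟩, ?_, ?_⟩ <;> linarith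
  · congr 1; norm_num

lemma face (p : E 3) (a b : E 3) (d : ℝ) (hd : 0 ≤ d)
    (h : d ^ 2 = ‖a‖ ^ 2 * ‖b‖ ^ 2 - inner ℝ a b ^ 2) :
    μHE[2] ((fun y : E 2 => p + (y 0 • a + y 1 • b)) '' T 2 41) ≤
      ENNReal.ofReal (d * (9331 / 10)) := by
  let f : E 2 →ₗ[ℝ] E 3 := (EuclideanSpace.projₗ 0).smulRight a + (EuclideanSpace.projₗ 1).smulRight b
  have e : (fun y : E 2 => p + (y 0 • a + y 1 • b)) '' T 2 41 = p +ᵥ (f '' T 2 41) := by
    rw [← image_vadd, image_image]; rfl
  have k := f.euclideanHausdorffMeasure_image_eq_normDet_mul_volume (T 2 41)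
  have n : f.normDet = d := by
    have := f.normDet_sq_eq_det_gram (EuclideanSpace.basisFun (Fin 2) ℝ)
    rw [Matrix.det_fin_two] at this
    simp [f, Matrix.gram, real_inner_comm] at this
    refine (pow_left_inj₀ f.normDet_nonneg hd two_ne_zero).1 ?_
    rw [h, this]; ring
  rw [finrank_euclideanSpace_fin, n] at k
  rw [e, measure_vadd, k, ENNReal.ofReal_mul hd]
  gcongr
  exact area

lemma surf : μHE[2] (frontier (T 3 40)) ≤ ENNReal.ofReal ((3 + √3) * (9331 / 10)) := by
  have f0 := face !₂[-1, 0, 0] !₂[0, 1, 0] !₂[0, 0, 1] 1 zero_le_one (by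
    simp [EuclideanSpace.norm_sq_eq, Fin.sum_univ_three, PiLp.inner_apply])
  have f1 := face !₂[0, -1, 0] !₂[1, 0, 0] !₂[0, 0, 1] 1 zero_le_one (by
    simp [EuclideanSpace.norm_sq_eq, Fin.sum_univ_three, PiLp.inner_apply])
  have f2 := face !₂[0, 0, -1] !₂[1, 0, 0] !₂[0, 1, 0] 1 zero_le_one (by
    simp [EuclideanSpace.norm_sq_eq, Fin.sum_univ_three, PiLp.inner_apply])
  have f3 := face !₂[0, 0, 40] !₂[1, 0, -1] !₂[0, 1, -1] √3 (by positivity) (by
    simp [EuclideanSpace.norm_sq_eq, Fin.sum_univ_three, PiLp.inner_apply]; norm_num)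
  refine le_trans (measure_mono ?_) ((measure_union_le _ _).trans ((add_le_add
    ((measure_union_le _ _).trans (add_le_add ((measure_union_le _ _).trans (add_le_add f0 f1)) f2))
    f3).trans (le_of_eq ?_)))
  · intro x hx
    obtain ⟨⟨a, b⟩, c⟩ := (T_fr 2 40 x).1 hx
    rw [Fin.sum_univ_three] at b c
    have a0 := a 0
    have a1 := a 1
    have a2 := a 2
    have m : ∀ u v : ℝ, -1 ≤ u → -1 ≤ v → u + v ≤ 41 → !₂[u, v] ∈ T 2 41 := fun u v h1 h2 h3 => by
      simp [T, Fin.forall_fin_two, *]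
    rcases c with ⟨i, c⟩ | c
    · fin_cases i
      · exact .inl (.inl (.inl ⟨_, m _ _ a1 a2 (by linarith), by
          ext i; fin_cases i <;> simp at c ⊢; exact c.symm⟩))
      · exact .inl (.inl (.inr ⟨_, m _ _ a0 a2 (by linarith), by
          ext i; fin_cases i <;> simp at c ⊢; exact c.symm⟩))
      · exact .inl (.inr ⟨_, m _ _ a0 a1 (by linarith), by
          ext i; fin_cases i <;> simp at c ⊢; exact c.symm⟩)
    · exact .inr ⟨_, m _ _ a0 a1 (by linarith), by
        ext i; fin_cases i <;> simp; linarith⟩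
  · rw [← ENNReal.ofReal_add (by positivity) (by positivity),
      ← ENNReal.ofReal_add (by positivity) (by positivity),
      ← ENNReal.ofReal_add (by positivity) (by positivity)]
    congr 1; ring

theorem result : ∃ K : Set (E 3), IsCompact K ∧ Convex ℝ K ∧ 0 ∈ interior K ∧
    μHE[2] (frontier K) ≠ ⊤ ∧ (∀ i, μH[1] (frontier (sec K i)) ≠ ⊤) ∧
    V2 K ^ 2 < 1 / 16 * (∑ i, ell K i ^ 2) ^ 2 - 1 / 8 * ∑ i, ell K i ^ 4 := by
  refine ⟨T 3 40, Metric.isCompact_of_isClosed_isBounded (T_closed _ _) ?_, ?_, by simp [T_int],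
    ne_top_of_le_ne_top ENNReal.ofReal_ne_top surf, fun i => by rw [sec_eq, perim]; exact ENNReal.ofReal_ne_top, ?_⟩
  · refine (Metric.isBounded_closedBall (x := 0) (r := 100)).subset fun x ⟨a, b⟩ => ?_
    rw [Fin.sum_univ_three] at b
    have a0 := a 0
    have a1 := a 1
    have a2 := a 2
    rw [mem_closedBall_zero_iff, EuclideanSpace.norm_eq, Real.sqrt_le_left (by norm_num)]
    simp only [Fin.sum_univ_three, Real.norm_eq_abs, sq_abs]
    nlinarith
  · rintro x ⟨a, b⟩ y ⟨c, d⟩ s t hs ht h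
    refine ⟨fun i => ?_, ?_⟩
    · have := a i
      have := c i
      simp only [PiLp.add_apply, PiLp.smul_apply, smul_eq_mul]
      nlinarith
    · simp only [PiLp.add_apply, PiLp.smul_apply, smul_eq_mul, Finset.sum_add_distrib,
        ← Finset.mul_sum]
      nlinarith
  · have v := ENNReal.toReal_le_of_le_ofReal (by positivity) surf
    have v0 : 0 ≤ (μHE[2] (frontier (T 3 40))).toReal := ENNReal.toReal_nonneg
    simp only [V2, ell, sec_eq, perim, Finset.sum_const, Finset.card_univ, Fintype.card_fin]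
    rw [ENNReal.toReal_ofReal (by positivity)]
    have s3 : √3 < 1.7321 := Real.sqrt_lt' (by norm_num) |>.2 (by norm_num)
    have s2 : 1.414 < √2 := Real.lt_sqrt (by norm_num) |>.2 (by norm_num)
    generalize (μHE[2] (frontier (T 3 40))).toReal = w at v v0
    have h1 : (w / 2) ^ 2 ≤ 2208 ^ 2 := pow_le_pow_left₀ (by positivity) (by linarith) 2
    have h2 : (71.69 : ℝ) ^ 4 ≤ (42 * (2 + √2) / 2) ^ 4 :=
      pow_le_pow_left₀ (by positivity) (by linarith) 4
    simp only [nsmul_eq_mul, Nat.cast_ofNat]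
    nlinarith

end Pool.Agent.Results.MP_6df474_gt.Simplex
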